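import Mathlib
import Pool.Agent.Y636.SM.Main

/-!
# Subpower membership is in NP for all nilpotent extensions of completely regular semigroups

Let `S` be a finite semigroup, and let `S ^ (r + 1)` be the ideal of all products of more than `r`
elements of `S`. If `S ^ (r + 1)` is completely regular for some `r`, that is, if `S` is an ideal
extension of a completely regular semigroup by a nilpotent one, then the subpower membership problem
of `S` is in `NP`. For `r = 0` this is the question (for completely regular semigroups); all
nilpotent semigroups and all products of a completely regular and a nilpotent semigroup belong to
the class, too, and so do their subsemigroups and homomorphic images.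

More generally we show that short straight-line programs for the elements of subsemigroups of powers
can be transferred from `S ^ (r + 1)` to `S`, for all semigroups `S`. Let `A` be a set of `n`-tuples
over `S` and let `w` be a product of `m` of its elements. If `m ≤ r` this is a short program.
Otherwise `w` is a product of blocks of at least `r + 1` and at most `2 r + 1` elements of `A`; the
blocks are tuples over `S ^ (r + 1)`, so there is a short program over the blocks, and each of the
blocks that occur in it is computed by `4 r + 1` instructions.
-/

namespace Pool.Agent.Results.MP_c4ab36_lc.NilpotentExtensions

open Pool.Agent.NPC Pool.Agent.H648R3.SMP Pool.Agent.Y636.SM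

/-- 1. The subpower membership problem of every finite completely regular semigroup is in `NP`
(for every coding of the elements); this is the positive answer to Q1.
2. The same holds for every finite semigroup `S` such that for some `r` all products of more than `r`
elements of `S` are completely regular (elements of subgroups).
3. For every such `S` there is a polynomial `p` such that each element of the subsemigroup generated
by a set `A` of elements of `S ^ n` is computed by a straight-line program over `A` with at most
`p n` instructions (`n` is the number of coordinates, the size of `A` does not matter).
4. Transfer: for every semigroup `S` (also infinite) and every `r`, if the ideal `power S r` of the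
products of more than `r` elements has short programs, then `S` has short programs; and finite
semigroups with short programs have their subpower membership problems in `NP`. -/
theorem result :
    (∀ (S : Type) [Semigroup S] [Finite S] [TEnc S], CompletelyRegular S → InNPP (SMP S)) ∧
    (∀ (S : Type) [Semigroup S] [Finite S] [TEnc S] (r : ℕ),
      (∀ (a : S) (l : List S), r ≤ l.length → CR (l.foldl (· * ·) a)) → InNPP (SMP S)) ∧
    (∀ (S : Type) [Semigroup S] [Finite S] (r : ℕ),
      (∀ (a : S) (l : List S), r ≤ l.length → CR (l.foldl (· * ·) a)) → ShortPrograms S) ∧
    (∀ (S : Type) [Semigroup S] (r : ℕ), ShortPrograms (power S r) → ShortPrograms S) ∧
    (∀ (S : Type) [Semigroup S] [Finite S] [TEnc S], ShortPrograms S → InNPP (SMP S)) :=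
  ⟨fun S _ _ _ hS => smp_inNPP_of (short_programs' S 0 fun a _ => hS a),
    fun S _ _ _ r hS => smp_inNPP_of (short_programs' S r (power_of hS)),
    fun S _ _ r hS => short_programs' S r (power_of hS),
    fun S _ r hS => transfer S r hS,
    fun _ _ _ _ hS => smp_inNPP_of hS⟩

end Pool.Agent.Results.MP_c4ab36_lc.NilpotentExtensions
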